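import Pool.Agent.helper94.SCT.Spec

/-! # Row TTW of the sct project: type II sums over a set of small measure -/

set_option autoImplicit false

namespace Pool.Agent.SCT

open Finset ArithmeticFunction MeasureTheory
open Pool.Agent.CH (nit eU)
open Pool.Agent.helper78.ED (wg SS)
open Pool.Agent.helper85.BVP (beta)

private theorem TTW_cont (M : ℕ) (a : ℕ → ℂ) : Continuous fun t : ℝ => Bk M a t := by
  unfold Bk
  exact continuous_finsetSum _ fun m _ => continuous_const.mul (nu_cont m)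

private theorem TTW_bound (M : ℕ) (a : ℕ → ℂ) (t : ℝ) : ‖Bk M a t‖ ≤ ∑ m ∈ Ico M (2 * M), ‖a m‖ := by
  unfold Bk
  refine (norm_sum_le _ _).trans (Finset.sum_le_sum fun m _ => ?_)
  rw [norm_mul, nu_norm, mul_one]

/-- one block over a translated set -/
private theorem TTW_one (E : Set ℝ) (v : ℝ) (f : ℝ → ℝ) :
    ∫ t in E, f (t + v) = ∫ s in (fun s : ℝ => s - v) ⁻¹' E, f s := by
  have h1 : MeasurePreserving (fun t : ℝ => t + v) volume volume := measurePreserving_add_right volume v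
  have h2 : MeasurableEmbedding (fun t : ℝ => t + v) := measurableEmbedding_addRight v
  have h3 := h1.setIntegral_preimage_emb h2 f ((fun s : ℝ => s - v) ⁻¹' E)
  have h4 : (fun t : ℝ => t + v) ⁻¹' ((fun s : ℝ => s - v) ⁻¹' E) = E := by
    ext t
    simp
  rw [h4] at h3
  exact h3

theorem TTW (hSEP : SEP_stmt) (hBLK : BLK_stmt) (hDEC : DEC_stmt) : TTW_stmt := by
  intro g hg ε c hε hε2
  obtain ⟨δ, C₁, x₀, hδ, hC₁, hB⟩ := hBLK ε hε hε2
  obtain ⟨hdiff, hdec⟩ := hDEC g hg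
  obtain ⟨C₂, hC₂, hdec2⟩ := hdec 2
  set w : ℝ → ℝ := fun v => ‖Mt g ((v : ℂ) * Complex.I)‖ with hw
  have hwc : Continuous w := by
    have h1 : Continuous fun v : ℝ => (v : ℂ) * Complex.I := by fun_prop
    exact (hdiff.continuous.comp h1).norm
  have hw0 : ∀ v, 0 ≤ w v := fun v => norm_nonneg _
  have hwi : Integrable w := by
    refine Integrable.mono' (g := fun v : ℝ => C₂ * (1 + v ^ 2)⁻¹) (integrable_inv_one_add_sq.const_mul C₂)
      hwc.aestronglyMeasurable (Filter.Eventually.of_forall fun v => ?_)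
    have h1 := hdec2 ((v : ℂ) * Complex.I) (by simp)
    have h2 : ‖(v : ℂ) * Complex.I‖ = |v| := by
      rw [norm_mul, Complex.norm_I, mul_one, Complex.norm_real, Real.norm_eq_abs]
    rw [h2] at h1
    rw [Real.norm_of_nonneg (hw0 v), ← div_eq_mul_inv, le_div_iff₀ (by positivity)]
    refine le_trans ?_ h1
    refine mul_le_mul_of_nonneg_left ?_ (hw0 v)
    have h3 : |v| ^ 2 = v ^ 2 := sq_abs v
    nlinarith [abs_nonneg v]
  have hI0 : 0 ≤ ∫ v, w v := integral_nonneg hw0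
  refine ⟨δ, 64 * C₁ * (∫ v, w v) + 1, max x₀ 64, hδ, by positivity, ?_⟩
  intro x hx E hE hEs hEv M K a b hM hK hMK ha hb
  have hx0 : x₀ ≤ x := (le_max_left _ _).trans hx
  have hx64 : 64 ≤ x := (le_max_right _ _).trans hx
  have hx64r : (64 : ℝ) ≤ x := by exact_mod_cast hx64
  have hxpos : (0 : ℝ) < x := by linarith
  have hlog0 : 0 ≤ Real.log (x : ℝ) := Real.log_nonneg (by linarith)
  have hx1 : (1 : ℝ) ≤ (x : ℝ) ^ (2 / 3 : ℝ) := Real.one_le_rpow (by linarith) (by norm_num)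
  have hM1 : 1 ≤ M := by
    rcases Nat.eq_zero_or_pos M with h | h
    · rw [h] at hM
      norm_num at hM
      linarith
    · exact h
  have hK1 : 1 ≤ K := by
    rcases Nat.eq_zero_or_pos K with h | h
    · rw [h] at hK
      norm_num at hK
      linarith
    · exact h
  have hMr : (1 : ℝ) ≤ M := by exact_mod_cast hM1
  have hKr : (1 : ℝ) ≤ K := by exact_mod_cast hK1
  have hMKr : (M : ℝ) * K ≤ 64 * (x : ℝ) ^ 2 := by exact_mod_cast hMK
  have hx3 : 64 * (x : ℝ) ^ 2 ≤ (x : ℝ) ^ 3 := by nlinarith [sq_nonneg (x : ℝ)]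
  have hM3 : (M : ℝ) ≤ (x : ℝ) ^ 3 := by nlinarith
  have hK3 : (K : ℝ) ≤ (x : ℝ) ^ 3 := by nlinarith
  set Lc : ℝ := Real.log (x : ℝ) ^ (c + 1) with hLc
  have hLc0 : 0 ≤ Lc := pow_nonneg hlog0 _
  -- the mean value over a translated set
  have hE' : ∀ v : ℝ, MeasurableSet ((fun s : ℝ => s - v) ⁻¹' E) := fun v =>
    (measurable_id.sub_const v) hE
  have hmean : ∀ (v : ℝ) (P : ℕ) (d : ℕ → ℂ), (x : ℝ) ^ (2 / 3 : ℝ) ≤ 8 * P → (P : ℝ) ≤ (x : ℝ) ^ 3 →
      ∑ m ∈ Ico P (2 * P), ‖d m‖ ^ 2 ≤ P * Real.log x ^ c →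
      ∫ t in E, ‖Bk P d (t + v)‖ ^ 2 ≤ C₁ * (P : ℝ) ^ 2 * Lc := by
    intro v P d hP1 hP3 hd
    rw [TTW_one E v (fun s => ‖Bk P d s‖ ^ 2)]
    have h1 := hB x hx0 ((fun s : ℝ => s - v) ⁻¹' E) v (hE' v) (by
      intro s hs
      have h2 := hEs hs
      rw [Set.mem_Icc] at h2 ⊢
      constructor
      · linarith [h2.1]
      · linarith [h2.2]) (by
      have h2 : volume ((fun s : ℝ => s - v) ⁻¹' E) = volume E :=
        (measurePreserving_sub_right volume v).measure_preimage hE.nullMeasurableSet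
      rw [h2]
      exact hEv) P hP1 hP3 d
    refine h1.trans ?_
    have h3 : 0 ≤ C₁ * P * Real.log x := by positivity
    calc C₁ * P * Real.log x * ∑ m ∈ Ico P (2 * P), ‖d m‖ ^ 2 ≤
          C₁ * P * Real.log x * (P * Real.log x ^ c) := mul_le_mul_of_nonneg_left hd h3
      _ = C₁ * (P : ℝ) ^ 2 * Lc := by rw [hLc, pow_succ]; ring
  set F : ℝ → ℝ := fun s => ‖Bk M a s‖ * ‖Bk K b s‖ with hF
  have hFc : Continuous F := (TTW_cont M a).norm.mul (TTW_cont K b).norm
  have hF0 : ∀ s, 0 ≤ F s := fun s => mul_nonneg (norm_nonneg _) (norm_nonneg _)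
  have hiE : ∀ f : ℝ → ℝ, Continuous f → IntegrableOn f E := fun f hf =>
    (hf.integrableOn_Icc).mono_set hEs
  have hFE : ∀ v : ℝ, ∫ t in E, F (t + v) ≤ C₁ * (M * K) * Lc := by
    intro v
    have h1 := hmean v M a hM hM3 ha
    have h2 := hmean v K b hK hK3 hb
    have hMc : Continuous fun t : ℝ => ‖Bk M a (t + v)‖ ^ 2 :=
      (((TTW_cont M a).comp (continuous_id.add continuous_const)).norm).pow 2
    have hKc : Continuous fun t : ℝ => ‖Bk K b (t + v)‖ ^ 2 :=
      (((TTW_cont K b).comp (continuous_id.add continuous_const)).norm).pow 2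
    have hM0 : (0 : ℝ) < M := by linarith
    have hK0 : (0 : ℝ) < K := by linarith
    have h3 : ∫ t in E, F (t + v) ≤ ∫ t in E, (K / (2 * M) * ‖Bk M a (t + v)‖ ^ 2 +
        M / (2 * K) * ‖Bk K b (t + v)‖ ^ 2) := by
      refine setIntegral_mono (hiE _ (hFc.comp (continuous_id.add continuous_const)))
        (hiE _ ((hMc.const_mul _).add (hKc.const_mul _))) fun t => ?_
      have h4 : 0 ≤ (K * ‖Bk M a (t + v)‖ - M * ‖Bk K b (t + v)‖) ^ 2 / (2 * M * K) := by positivity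
      have h5 : (K * ‖Bk M a (t + v)‖ - M * ‖Bk K b (t + v)‖) ^ 2 / (2 * M * K) =
          (K / (2 * M) * ‖Bk M a (t + v)‖ ^ 2 + M / (2 * K) * ‖Bk K b (t + v)‖ ^ 2) - F (t + v) := by
        rw [hF]
        field_simp
        ring
      rw [h5] at h4
      linarith
    rw [integral_add ((hiE _ hMc).const_mul _) ((hiE _ hKc).const_mul _), integral_const_mul,
      integral_const_mul] at h3
    refine h3.trans ?_
    have h6 : K / (2 * M) * ∫ t in E, ‖Bk M a (t + v)‖ ^ 2 ≤ K / (2 * M) * (C₁ * (M : ℝ) ^ 2 * Lc) :=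
      mul_le_mul_of_nonneg_left h1 (by positivity)
    have h7 : M / (2 * K) * ∫ t in E, ‖Bk K b (t + v)‖ ^ 2 ≤ M / (2 * K) * (C₁ * (K : ℝ) ^ 2 * Lc) :=
      mul_le_mul_of_nonneg_left h2 (by positivity)
    have h8 : K / (2 * M) * (C₁ * (M : ℝ) ^ 2 * Lc) + M / (2 * K) * (C₁ * (K : ℝ) ^ 2 * Lc) =
        C₁ * (M * K) * Lc := by
      field_simp
      ring
    linarith
  -- Fubini
  have hfin : volume E < ⊤ := hEv.trans_lt ENNReal.ofReal_lt_top
  have : IsFiniteMeasure (volume.restrict E) := ⟨by rw [Measure.restrict_apply_univ]; exact hfin⟩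
  set S : ℝ := (∑ m ∈ Ico M (2 * M), ‖a m‖) * ∑ k ∈ Ico K (2 * K), ‖b k‖ with hS
  have hprod : Integrable (Function.uncurry fun t v : ℝ => w v * F (t + v)) ((volume.restrict E).prod volume) := by
    have h1 : Integrable (fun z : ℝ × ℝ => (S : ℝ) * w z.2) ((volume.restrict E).prod volume) :=
      (integrable_const (μ := volume.restrict E) S).mul_prod hwi
    refine h1.mono' ?_ (Filter.Eventually.of_forall fun z => ?_)
    · have h2 : Continuous (Function.uncurry fun t v : ℝ => w v * F (t + v)) := by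
        have h3 : Continuous fun z : ℝ × ℝ => w z.2 * F (z.1 + z.2) :=
          (hwc.comp continuous_snd).mul (hFc.comp (continuous_fst.add continuous_snd))
        exact h3
      exact h2.aestronglyMeasurable
    · have h3 : F (z.1 + z.2) ≤ S := by
        rw [hS]
        exact mul_le_mul (TTW_bound M a _) (TTW_bound K b _) (norm_nonneg _)
          (Finset.sum_nonneg fun _ _ => norm_nonneg _)
      have h4 : Function.uncurry (fun t v : ℝ => w v * F (t + v)) z = w z.2 * F (z.1 + z.2) := rfl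
      rw [h4, Real.norm_of_nonneg (mul_nonneg (hw0 _) (hF0 _)), mul_comm S]
      exact mul_le_mul_of_nonneg_left h3 (hw0 _)
  have hstep1 : ∫ t in E, ‖B2 g ((x : ℝ) ^ 2) M K a b t‖ ≤ ∫ t in E, ∫ v, w v * F (t + v) := by
    refine integral_mono_of_nonneg (Filter.Eventually.of_forall fun t => norm_nonneg _) ?_
      (Filter.Eventually.of_forall fun t => ?_)
    · exact hprod.integral_prod_left
    · exact hSEP g hg ((x : ℝ) ^ 2) M K a b t (by positivity) hM1 hK1
  have hstep2 : ∫ t in E, ∫ v, w v * F (t + v) = ∫ v, ∫ t in E, w v * F (t + v) :=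
    integral_integral_swap hprod
  have hstep3 : ∫ v, ∫ t in E, w v * F (t + v) ≤ ∫ v, w v * (C₁ * (M * K) * Lc) := by
    refine integral_mono_of_nonneg (Filter.Eventually.of_forall fun v => ?_) (hwi.mul_const _)
      (Filter.Eventually.of_forall fun v => ?_)
    · exact integral_nonneg fun t => mul_nonneg (hw0 v) (hF0 _)
    · show ∫ t in E, w v * F (t + v) ≤ w v * (C₁ * (M * K) * Lc)
      rw [integral_const_mul]
      exact mul_le_mul_of_nonneg_left (hFE v) (hw0 v)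
  rw [integral_mul_const] at hstep3
  have hfinal : (∫ v, w v) * (C₁ * (M * K) * Lc) ≤ (64 * C₁ * (∫ v, w v) + 1) * (x : ℝ) ^ 2 * Lc := by
    have h1 : (∫ v, w v) * (C₁ * (M * K) * Lc) ≤ (∫ v, w v) * (C₁ * (64 * (x : ℝ) ^ 2) * Lc) := by
      refine mul_le_mul_of_nonneg_left ?_ hI0
      exact mul_le_mul_of_nonneg_right (mul_le_mul_of_nonneg_left hMKr hC₁.le) hLc0
    have h2 : 0 ≤ (x : ℝ) ^ 2 * Lc := by positivity
    nlinarith
  calc ∫ t in E, ‖B2 g ((x : ℝ) ^ 2) M K a b t‖ ≤ ∫ t in E, ∫ v, w v * F (t + v) := hstep1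
    _ = ∫ v, ∫ t in E, w v * F (t + v) := hstep2
    _ ≤ (∫ v, w v) * (C₁ * (M * K) * Lc) := hstep3
    _ ≤ _ := hfinal

end Pool.Agent.SCT
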